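import Pool.Agent.MP_0af9a5_an.Mg.Main

namespace Pool.Agent.Results.MP_0af9a5_an.Criterion

open Pool.Agent.MP_0af9a5_an Set Metric ComplexConjugate

/-- Boundary criteria, with no regularity assumption, for the harmonic extension `P` of a
homeomorphism `φ` of the unit circle onto a Jordan curve `J` to be a homeomorphism of the disc onto
the inside `D` of `J`; `E` is the outside of `J`. -/
theorem result :
    ∀ φ : ℂ → ℂ, ContinuousOn φ (Metric.sphere (0 : ℂ) 1) → Set.InjOn φ (Metric.sphere (0 : ℂ) 1) →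
    ∀ P : ℂ → ℂ,
      (∀ z ∈ Metric.ball (0 : ℂ) 1,
        P z = ((1 / (2 * Real.pi) : ℝ) : ℂ) *
          ∫ t in (0 : ℝ)..(2 * Real.pi),
            (((1 - ‖z‖ ^ 2) / ‖Complex.exp ((t : ℂ) * Complex.I) - z‖ ^ 2 : ℝ) : ℂ) *
              φ (Complex.exp ((t : ℂ) * Complex.I))) →
    ∀ J D E : Set ℂ, J = φ '' Metric.sphere (0 : ℂ) 1 →
      D = {w : ℂ | w ∉ J ∧ Bornology.IsBounded (connectedComponentIn Jᶜ w)} →
      E = {w : ℂ | w ∉ J ∧ ¬ Bornology.IsBounded (connectedComponentIn Jᶜ w)} →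
      List.TFAE
        [∃ h : OpenPartialHomeomorph ℂ ℂ, h.source = Metric.ball 0 1 ∧ h.target = D ∧
            Set.EqOn h P (Metric.ball 0 1),
          ∃ r : ℝ, r < 1 ∧ ∀ z : ℂ, r < ‖z‖ → ‖z‖ < 1 → P z ∈ closure D,
          ∀ ζ ∈ Metric.sphere (0 : ℂ) 1,
            (∃ e : ℂ, e ≠ 0 ∧ ∀ w ∈ J, (conj e * (w - φ ζ)).re ≤ 0) ∨
              ∃ ε : ℝ, 0 < ε ∧ ∀ z ∈ Metric.ball (0 : ℂ) 1, dist z ζ < ε → P z ∈ closure D,
          ∀ ζ ∈ Metric.sphere (0 : ℂ) 1, ∀ e : ℂ, e ≠ 0 → ∀ ε : ℝ, 0 < ε →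
            (∃ w ∈ E, dist w (φ ζ) < ε ∧ 0 < (conj e * (w - φ ζ)).re) ∨
              ∃ z ∈ Metric.ball (0 : ℂ) 1, dist z ζ < ε ∧ 0 < (conj e * (P z - φ ζ)).re] := by
  intro φ hc hi P hP J D E hJ hD hE
  obtain ⟨H, hH⟩ := schoenflies hc hi
  obtain ⟨F, A, B, g, hF⟩ := exists_glue (P := P) hc hH fun z hz => (hP z hz).trans (poisson_eq hc hz)
  rw [← hH.image_eq] at hJ
  rw [hJ, D_eq] at hD
  rw [hJ, E_eq] at hE
  have cl : closure D = H '' closedBall 0 1 := by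
    rw [hD, ← H.image_closure, closure_ball 0 one_ne_zero]
  tfae_have 1 → 2 := by
    rintro ⟨h, h1, h2, h3⟩
    refine ⟨0, one_pos, fun z _ hz => subset_closure ?_⟩
    have a := mem_ball_zero_iff.2 hz
    rw [← h2, ← h3 a]
    exact h.map_source (h1 ▸ a)
  tfae_have 2 → 3 := by
    rintro ⟨r, hr, h⟩ ζ hζ
    refine Or.inr ⟨1 - r, sub_pos.2 hr, fun z hz d => h z ?_ (mem_ball_zero_iff.1 hz)⟩
    have := norm_sub_norm_le ζ z
    rw [mem_sphere_zero_iff_norm.1 hζ, ← dist_eq_norm, dist_comm] at this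
    linarith
  tfae_have 3 → 4 := by
    intro h ζ hζ e he ε hε
    rw [← hH hζ, hE]
    refine (g.crit hζ ((h ζ hζ).imp ?_ ?_) he hε).imp_right ?_
    · rintro ⟨e₀, a, b⟩
      exact ⟨e₀, a, fun ξ hξ => hH hζ ▸ b _ (hJ ▸ mem_image_of_mem H hξ)⟩
    · rintro ⟨ε', a, b⟩
      exact ⟨ε', a, fun z hz d => by rw [← cl, hF hz]; exact b z hz d⟩
    · rintro ⟨z, hz, a, b⟩
      exact ⟨z, hz, a, hF hz ▸ b⟩
  tfae_have 4 → 1 := by
    intro h
    obtain ⟨loc, bij⟩ := g.homeo fun ζ hζ e he ε hε => by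
      rw [hH hζ, ← hE]
      refine (h ζ hζ e he ε hε).imp_right ?_
      rintro ⟨z, hz, a, b⟩
      exact ⟨z, hz, a, by rwa [hF hz]⟩
    refine ⟨OpenPartialHomeomorph.ofContinuousOpenRestrict (bij.toPartialEquiv F _ _)
      g.cont.continuousOn (IsOpenMap.of_nhds_le fun z => ?_) isOpen_ball, rfl, hD.symm, hF⟩
    exact ((loc.map_nhds_eq z.2).symm.trans (congrArg (Filter.map F)
      (isOpen_ball.isOpenEmbedding_subtypeVal.map_nhds_eq
        (⟨z.1, z.2⟩ : ball (0 : ℂ) 1)).symm)).le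
  tfae_finish

end Pool.Agent.Results.MP_0af9a5_an.Criterion
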